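import Pool.Agent.TH927.CM.Defs
import Pool.Agent.W326.MO.HA3

/-!
# MP_768c9c_nt, task HAc: host pairs with `n₁ ∣ n`, completely multiplicative version
-/

set_option autoImplicit false

namespace Pool.Agent.TH832.J788

open Finset Filter Topology Pool.Agent.W76.MO Pool.Agent.W326.MO Pool.Agent.TH927.CM
open scoped Classical

section env
variable {E : Env}

theorem Ec_nonneg {j : ℕ} (hgu : ∀ p, 0 ≤ E.gu j p) (hgh : ∀ p, 0 ≤ E.gh j p) (n : ℕ) :
    0 ≤ Ec E j n := by
  unfold Ec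
  apply mprod_nonneg
  intro p
  have := g_nonneg (hgu p) (hgh p)
  positivity

theorem Ec_one {j m : ℕ} (hgu : ∀ p, E.gu j p ≠ 0 → E.U j p) (hgh : ∀ p, E.gh j p ≠ 0 → E.H j p)
    (hm : ∀ p : ℕ, p.Prime → p ∣ m → ¬ E.U j p ∧ ¬ E.H j p) : Ec E j m = 1 := by
  unfold Ec mprod
  apply List.prod_eq_one
  intro x hx
  obtain ⟨p, hp, rfl⟩ := List.mem_map.1 hx
  have h1 := hm p (Nat.prime_of_mem_primeFactorsList hp) (Nat.dvd_of_mem_primeFactorsList hp)
  rw [g_zero (hgu p) (hgh p) h1.1 h1.2]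
  simp

/-- the value of the term of a divisible pair -/
theorem term_eqc {j i' k' n₁ n : ℕ} (hgu : ∀ p, E.gu j p ≠ 0 → E.U j p)
    (hgh : ∀ p, E.gh j p ≠ 0 → E.H j p) (hn₁ : n₁ ∈ E.Host j i' k') (hn : n ≠ 0)
    (hd : n₁ ∣ n) :
    ((n₁ : ℝ) / n) * Ec E j (n / lp n₁) = Ec E j (n / n₁) / ((n / n₁ : ℕ) : ℝ) := by
  obtain ⟨a, rfl⟩ := hd
  obtain ⟨hq, hqd⟩ := host_lp hn₁
  have h1 := mem_host hn₁
  obtain ⟨m, hm⟩ := hqd
  set q := lp n₁ with hqdef
  have hq0 : 0 < q := hq.pos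
  have hsq : Squarefree n₁ := h1.2.2.2.1
  have hn₁0 : 0 < n₁ := Nat.pos_of_ne_zero hsq.ne_zero
  have ha0 : 0 < a := by
    rcases Nat.eq_zero_or_pos a with h | h
    · rw [h, mul_zero] at hn; exact absurd rfl hn
    · exact h
  have hmq : n₁ / q = m := by
    rw [hm]; exact Nat.mul_div_cancel_left m hq0
  have hm0 : m ≠ 0 := by
    intro h; rw [h, mul_zero] at hm; omega
  have e1 : n₁ * a / q = m * a := by
    rw [hm, mul_assoc]; exact Nat.mul_div_cancel_left _ hq0
  have e2 : n₁ * a / n₁ = a := Nat.mul_div_cancel_left _ hn₁0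
  have e3 : Ec E j (m * a) = Ec E j m * Ec E j a := by
    unfold Ec; exact mprod_mul _ hm0 ha0.ne'
  rw [e1, e2, e3, Ec_one hgu hgh (by rw [← hmq]; exact h1.2.2.2.2.2.2), one_mul]
  push_cast
  have : (n₁ : ℝ) ≠ 0 := by positivity
  have : (a : ℝ) ≠ 0 := by positivity
  field_simp

/-- the host prime divides `n` only once -/
theorem fact_le_one {j i k i' k' n₁ n : ℕ} (hn₁ : n₁ ∈ E.Host j i' k')
    (hk : k < nc E.δ i) (hn : n ∈ cell E.δ i k) (hi : 2 < E.τ * i)
    (hi' : (1 - E.τ) * i ≤ i') : n.factorization (lp n₁) ≤ 1 := by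
  obtain ⟨hq, -⟩ := host_lp hn₁
  have h1 := (mem_host hn₁).2.1
  have h2 := cell_bounds hk hn
  by_contra hc
  push Not at hc
  have hn0 : n ≠ 0 := by have := Nat.pos_of_ne_zero (pow_ne_zero i (two_ne_zero (α := ℕ))); omega
  have h3 : lp n₁ ^ 2 ∣ n := (hq.pow_dvd_iff_le_factorization hn0).2 hc
  have h4 := Nat.le_of_dvd (Nat.pos_of_ne_zero hn0) h3
  have h5 : ((lp n₁ : ℝ)) ^ 2 ≤ 2 ^ ((i : ℝ) + 1) := by
    have : ((lp n₁ ^ 2 : ℕ) : ℝ) ≤ ((2 ^ (i + 1) : ℕ) : ℝ) := by exact_mod_cast h4.trans h2.2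
    push_cast at this
    rw [Real.rpow_add (by norm_num), Real.rpow_natCast, Real.rpow_one, ← pow_succ]
    exact this
  have hτ := E.hτ
  have hτ' := E.hτ'
  have hi0 : (0 : ℝ) ≤ i := Nat.cast_nonneg i
  have h6 : (2 : ℝ) ^ ((1 / 2 + E.τ / 4) * i) ≤ lp n₁ := by
    refine le_trans ?_ h1
    apply Real.rpow_le_rpow_of_exponent_le (by norm_num)
    have h7 : (1 / 2 + E.τ / 4) * i ≤ (1 / 2 + E.τ) * ((1 - E.τ) * i) := by
      have : (1 / 2 + E.τ / 4) ≤ (1 / 2 + E.τ) * (1 - E.τ) := by nlinarith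
      nlinarith
    refine h7.trans ?_
    exact mul_le_mul_of_nonneg_left hi' (by linarith)
  have h8 : ((2 : ℝ) ^ ((1 / 2 + E.τ / 4) * i)) ^ 2 ≤ (lp n₁ : ℝ) ^ 2 :=
    pow_le_pow_left₀ (by positivity) h6 2
  rw [← Real.rpow_natCast, ← Real.rpow_mul (by norm_num)] at h8
  have h9 := h8.trans h5
  rw [Real.rpow_le_rpow_left_iff (by norm_num)] at h9
  push_cast at h9
  nlinarith

end env

variable (E : Env)

/-- the sum over the pairs with `n = a n₁` -/
theorem HTc_le {j R i k i' k' : ℕ} (hgu0 : ∀ p, 0 ≤ E.gu j p) (hgh0 : ∀ p, 0 ≤ E.gh j p)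
    (hgu : ∀ p, E.gu j p ≠ 0 → E.U j p) (hgh : ∀ p, E.gh j p ≠ 0 → E.H j p)
    (hk : k < nc E.δ i) (hk' : k' ∈ E.Bad i') (hi' : 1 ≤ i') (hi : 2 < E.τ * i)
    (hi'τ : (1 - E.τ) * i ≤ i') :
    HTc E j R i k i' k' (fun a b => a ∣ b) ≤ (if i' = i ∧ k' = k then E.w i else 0) +
      ∑ a ∈ (Icc 2 (2 ^ (i + 1))).filter (fun t => Rough R t),
        Ec E j a / a * (E.w i' / ((E.Host j i' k').card : ℝ) *
        (((E.Host j i' k').filter (fun n₁ => a * n₁ ∈ cell E.δ i k)).card : ℝ)) := by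
  have hw := w_pos E hi'
  set c : ℝ := E.w i' / ((E.Host j i' k').card : ℝ) with hc
  have hc0 : 0 ≤ c := by rw [hc]; positivity
  set S : Finset (ℕ × ℕ) := ((E.Host j i' k') ×ˢ (cr E R i k)).filter (fun u : ℕ × ℕ =>
      lp u.1 ∣ u.2 ∧ (2 : ℝ) ^ (1 / 20 * (i : ℝ)) < lp u.1 ∧ u.1 ∣ u.2) with hS
  have hSmem : ∀ u ∈ S, u.1 ∈ E.Host j i' k' ∧ u.2 ∈ cell E.δ i k ∧ u.2 ≠ 0 ∧
      Rough R u.2 ∧ u.1 ∣ u.2 := by
    intro u hu
    rw [hS, Finset.mem_filter, Finset.mem_product] at hu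
    have h1 := hu.1.2
    unfold cr at h1
    rw [Finset.mem_filter] at h1
    have h2 := cell_bounds hk h1.1
    exact ⟨hu.1.1, h1.1, by omega, h1.2, hu.2.2.2⟩
  have e0 : HTc E j R i k i' k' (fun a b => a ∣ b) ≤
      ∑ u ∈ S, c * (Ec E j (u.2 / u.1) / ((u.2 / u.1 : ℕ) : ℝ)) := by
    unfold HTc
    have e1 : ((E.Host j i' k') ×ˢ (cr E R i k)).filter (fun u : ℕ × ℕ =>
      lp u.1 ∣ u.2 ∧ (2 : ℝ) ^ (1 / 20 * (i : ℝ)) < lp u.1 ∧ u.1 ∣ u.2) = S := by
      rw [hS]
    refine le_of_eq_of_le (Finset.sum_congr (by rw [hS]; ext u; simp only [Finset.mem_filter])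
      (fun _ _ => rfl)) (Finset.sum_le_sum (s := S) fun u hu => ?_)
    obtain ⟨h1, h2, h3, h4, h5⟩ := hSmem u hu
    rw [← term_eqc hgu hgh h1 h3 h5, ← hc]
    have h6 : ((u.2.factorization (lp u.1) : ℕ) : ℝ) ≤ 1 := by
      exact_mod_cast fact_le_one h1 hk h2 hi hi'τ
    have h7 : 0 ≤ c * ((u.1 : ℝ) / u.2) * Ec E j (u.2 / lp u.1) :=
      mul_nonneg (mul_nonneg hc0 (by positivity)) (Ec_nonneg hgu0 hgh0 _)
    calc _ ≤ 1 * (c * ((u.1 : ℝ) / u.2) * Ec E j (u.2 / lp u.1)) :=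
          mul_le_mul_of_nonneg_right h6 h7
      _ = _ := by ring
  refine e0.trans ?_
  rw [← Finset.sum_filter_add_sum_filter_not S (fun u => u.1 = u.2)]
  apply add_le_add
  · -- the diagonal
    by_cases hd : i' = i ∧ k' = k
    · rw [if_pos hd]
      have h1 : ∑ u ∈ S.filter (fun u => u.1 = u.2),
          c * (Ec E j (u.2 / u.1) / ((u.2 / u.1 : ℕ) : ℝ)) =
          ((S.filter (fun u => u.1 = u.2)).card : ℝ) * c := by
        rw [← nsmul_eq_mul, ← Finset.sum_const]
        apply Finset.sum_congr rfl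
        intro u hu
        rw [Finset.mem_filter] at hu
        obtain ⟨h1, h2, h3, h4, h5⟩ := hSmem u hu.1
        have h6 : 0 < u.1 := by
          rw [hu.2]; exact Nat.pos_of_ne_zero h3
        rw [← hu.2, Nat.div_self h6]
        unfold Ec
        rw [mprod_one]
        simp
      rw [h1]
      have h2 : (S.filter (fun u => u.1 = u.2)).card ≤ (E.Host j i' k').card := by
        apply Finset.card_le_card_of_injOn (fun u => u.1)
        · intro u hu
          have hu' := Finset.mem_filter.mp (Finset.mem_coe.mp hu)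
          exact (hSmem u hu'.1).1
        · intro u hu v hv huv
          have hu' := Finset.mem_filter.mp (Finset.mem_coe.mp hu)
          have hv' := Finset.mem_filter.mp (Finset.mem_coe.mp hv)
          simp only at huv
          exact Prod.ext huv (by rw [← hu'.2, ← hv'.2]; exact huv)
      have h3 : ((E.Host j i' k').card : ℝ) * c ≤ E.w i' := by
        rw [hc]
        rcases Nat.eq_zero_or_pos (E.Host j i' k').card with h | h
        · rw [h]; simp; exact hw.le
        · have : ((E.Host j i' k').card : ℝ) ≠ 0 := by positivity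
          rw [mul_div_cancel₀ _ this]
      have h4 : ((S.filter (fun u => u.1 = u.2)).card : ℝ) ≤ ((E.Host j i' k').card : ℝ) := by
        exact_mod_cast h2
      calc _ ≤ ((E.Host j i' k').card : ℝ) * c := mul_le_mul_of_nonneg_right h4 hc0
        _ ≤ E.w i' := h3
        _ = E.w i := by rw [hd.1]
    · rw [if_neg hd]
      have : S.filter (fun u => u.1 = u.2) = ∅ := by
        rw [Finset.filter_eq_empty_iff]
        intro u hu he
        obtain ⟨h1, h2, h3, h4, h5⟩ := hSmem u hu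
        have hcell := (mem_host h1).1
        have hk2 : k' < nc E.δ i' := by
          unfold Env.Bad at hk'
          rw [Finset.mem_filter, Finset.mem_range] at hk'
          exact hk'.1
        have h6 := cell_bounds hk2 hcell
        have h7 := cell_bounds hk h2
        rw [he] at h6 hcell
        have h8 := scale_unique h6 h7
        subst h8
        exact hd ⟨rfl, cell_disj hcell h2⟩
      rw [this]; simp
  · -- proper multiples
    have hmaps : ∀ u ∈ S.filter (fun u => ¬ u.1 = u.2),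
        u.2 / u.1 ∈ (Icc 2 (2 ^ (i + 1))).filter (fun t => Rough R t) := by
      intro u hu
      rw [Finset.mem_filter] at hu
      obtain ⟨h1, h2, h3, h4, h5⟩ := hSmem u hu.1
      obtain ⟨a, ha⟩ := h5
      have h20 : u.2 ≠ 0 := h3
      have h10 : 0 < u.1 := by
        rcases Nat.eq_zero_or_pos u.1 with h | h
        · rw [h, zero_mul] at ha; exact absurd ha h20
        · exact h
      have hq : u.2 / u.1 = a := by rw [ha]; exact Nat.mul_div_cancel_left _ h10
      have ha0 : a ≠ 0 := by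
        intro h; rw [h, mul_zero] at ha; exact h20 ha
      have ha1 : a ≠ 1 := by
        intro h; rw [h, mul_one] at ha; exact hu.2 ha.symm
      rw [hq, Finset.mem_filter, Finset.mem_Icc]
      have hdvd : a ∣ u.2 := ⟨u.1, by rw [ha]; ring⟩
      refine ⟨⟨by omega, ?_⟩, ?_⟩
      · exact (Nat.le_of_dvd (Nat.pos_of_ne_zero h20) hdvd).trans (cell_bounds hk h2).2
      · intro p hp hpa
        exact h4 p hp (hpa.trans hdvd)
    rw [← Finset.sum_fiberwise_of_maps_to hmaps]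
    apply Finset.sum_le_sum
    intro a ha
    have h1 : ∑ u ∈ (S.filter (fun u => ¬ u.1 = u.2)).filter (fun u => u.2 / u.1 = a),
        c * (Ec E j (u.2 / u.1) / ((u.2 / u.1 : ℕ) : ℝ)) =
        (((S.filter (fun u => ¬ u.1 = u.2)).filter (fun u => u.2 / u.1 = a)).card : ℝ) *
          (c * (Ec E j a / a)) := by
      rw [← nsmul_eq_mul, ← Finset.sum_const]
      apply Finset.sum_congr rfl
      intro u hu
      rw [Finset.mem_filter] at hu
      rw [hu.2]
    rw [h1]
    have h2 : ((S.filter (fun u => ¬ u.1 = u.2)).filter (fun u => u.2 / u.1 = a)).card ≤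
        ((E.Host j i' k').filter (fun n₁ => a * n₁ ∈ cell E.δ i k)).card := by
      apply Finset.card_le_card_of_injOn (fun u => u.1)
      · intro u hu
        have hu' := Finset.mem_filter.mp (Finset.mem_coe.mp hu)
        have hu'' := Finset.mem_filter.mp hu'.1
        obtain ⟨g1, g2, g3, g4, g5⟩ := hSmem u hu''.1
        refine Finset.mem_coe.mpr (Finset.mem_filter.mpr ⟨g1, ?_⟩)
        rw [← hu'.2, Nat.div_mul_cancel g5]
        exact g2
      · intro u hu v hv huv
        have hu' := Finset.mem_filter.mp (Finset.mem_coe.mp hu)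
        have hv' := Finset.mem_filter.mp (Finset.mem_coe.mp hv)
        have hu'' := Finset.mem_filter.mp hu'.1
        have hv'' := Finset.mem_filter.mp hv'.1
        simp only at huv
        have g1 := (hSmem u hu''.1).2.2.2.2
        have g2 := (hSmem v hv''.1).2.2.2.2
        refine Prod.ext huv ?_
        rw [← Nat.div_mul_cancel g1, ← Nat.div_mul_cancel g2, hu'.2, hv'.2, huv]
    have h3 : (((S.filter (fun u => ¬ u.1 = u.2)).filter (fun u => u.2 / u.1 = a)).card : ℝ) ≤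
        (((E.Host j i' k').filter (fun n₁ => a * n₁ ∈ cell E.δ i k)).card : ℝ) := by
      exact_mod_cast h2
    have hE : 0 ≤ Ec E j a / a := div_nonneg (Ec_nonneg hgu0 hgh0 a) (Nat.cast_nonneg _)
    calc _ ≤ (((E.Host j i' k').filter (fun n₁ => a * n₁ ∈ cell E.δ i k)).card : ℝ) *
          (c * (Ec E j a / a)) := mul_le_mul_of_nonneg_right h3 (mul_nonneg hc0 hE)
      _ = _ := by ring

/-- **task HAc** -/
theorem HA_c : Pool.Agent.TH927.CM.T_HAc := by
  intro E hHC hGB hES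
  obtain ⟨JH, hJH⟩ := hHC
  obtain ⟨JG, hJG1, hJG⟩ := hGB
  have hcH := E.hcH
  have hCB := E.hCB
  have hτ := E.hτ
  set K : ℝ := 2 ^ 45 * E.CB / E.cH with hK
  have hK0 : 0 < K := by rw [hK]; positivity
  obtain ⟨R₀, hR₀⟩ := hES (1 / (64 * K)) (by positivity)
  refine ⟨R₀, fun R hR => ?_⟩
  obtain ⟨JE, hJE⟩ := hR₀ R hR
  refine ⟨JH + JG + JE + E.i₁ + 10 + (⌊2 / E.τ⌋₊ + 1), fun j hj i k hji hk => ?_⟩
  obtain ⟨-, hgu0, hgh0, hgu, hgh, -⟩ := hJG j (by omega)
  have hgh' : ∀ p, E.gh j p ≠ 0 → E.H j p := fun p hp => (hgh p hp).1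
  have hES' := hJE j (by omega) (2 ^ (i + 1))
  have hi2 : 2 < E.τ * i := by
    have h1 := Nat.lt_floor_add_one (2 / E.τ)
    have h2 : ((⌊2 / E.τ⌋₊ + 1 : ℕ) : ℝ) ≤ i := by
      have : ⌊2 / E.τ⌋₊ + 1 ≤ i := by omega
      exact_mod_cast this
    push_cast at h2
    have h3 : 2 / E.τ < i := h1.trans_le h2
    rw [div_lt_iff₀ hτ] at h3
    linarith
  set F := (range (2 * i + 3)).filter (fun i' : ℕ => j ≤ i' ∧ (1 - E.τ) * i ≤ (i' : ℝ)) with hF
  set A := (Icc 2 (2 ^ (i + 1))).filter (fun t => Rough R t) with hA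
  have hwi := w_pos E (i := i) (by omega)
  have hstep : ∑ i' ∈ F, ∑ k' ∈ E.Bad i', HTc E j R i k i' k' (fun a b => a ∣ b) ≤
      ∑ i' ∈ F, ∑ k' ∈ E.Bad i', ((if i' = i ∧ k' = k then E.w i else 0) +
      ∑ a ∈ A, Ec E j a / a * (E.w i' / ((E.Host j i' k').card : ℝ) *
        (((E.Host j i' k').filter (fun n₁ => a * n₁ ∈ cell E.δ i k)).card : ℝ))) := by
    apply Finset.sum_le_sum
    intro i' hi'
    rw [hF, Finset.mem_filter] at hi'
    apply Finset.sum_le_sum
    intro k' hk'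
    exact HTc_le E hgu0 hgh0 hgu hgh' hk hk' (by omega) hi2 hi'.2.2
  refine hstep.trans ?_
  simp only [Finset.sum_add_distrib]
  apply add_le_add
  · -- diagonal
    have h1 : ∀ i' ∈ F, ∑ k' ∈ E.Bad i', (if i' = i ∧ k' = k then E.w i else 0) ≤
        if i' = i then (if k ∈ E.Bad i then E.w i else 0) else 0 := by
      intro i' _
      by_cases h : i' = i
      · subst h
        simp only [true_and, if_true]
        rw [Finset.sum_ite_eq']
      · simp [h]
    refine (Finset.sum_le_sum h1).trans ?_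
    rw [Finset.sum_ite_eq']
    split_ifs
    · exact le_rfl
    · exact le_rfl
    · exact hwi.le
    · exact le_rfl
  · have h2 : ∑ i' ∈ F, ∑ k' ∈ E.Bad i', ∑ a ∈ A, Ec E j a / a *
        (E.w i' / ((E.Host j i' k').card : ℝ) *
        (((E.Host j i' k').filter (fun n₁ => a * n₁ ∈ cell E.δ i k)).card : ℝ)) =
        ∑ a ∈ A, Ec E j a / a * ∑ i' ∈ F, ∑ k' ∈ E.Bad i',
        (E.w i' / ((E.Host j i' k').card : ℝ) *
        (((E.Host j i' k').filter (fun n₁ => a * n₁ ∈ cell E.δ i k)).card : ℝ)) := by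
      have h3 : ∀ i' ∈ F, ∑ k' ∈ E.Bad i', ∑ a ∈ A, Ec E j a / a *
        (E.w i' / ((E.Host j i' k').card : ℝ) *
        (((E.Host j i' k').filter (fun n₁ => a * n₁ ∈ cell E.δ i k)).card : ℝ)) =
        ∑ a ∈ A, ∑ k' ∈ E.Bad i', Ec E j a / a *
        (E.w i' / ((E.Host j i' k').card : ℝ) *
        (((E.Host j i' k').filter (fun n₁ => a * n₁ ∈ cell E.δ i k)).card : ℝ)) :=
        fun i' _ => Finset.sum_comm
      rw [Finset.sum_congr rfl h3, Finset.sum_comm]
      apply Finset.sum_congr rfl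
      intro a _
      rw [Finset.mul_sum]
      apply Finset.sum_congr rfl
      intro i' _
      rw [Finset.mul_sum]
    rw [h2]
    calc _ ≤ ∑ a ∈ A, Ec E j a / a * (K * E.w i * (a : ℝ) ^ (-E.δ / 2)) := by
          apply Finset.sum_le_sum
          intro a ha
          rw [hA, Finset.mem_filter, Finset.mem_Icc] at ha
          apply mul_le_mul_of_nonneg_left
          · exact Sa_le E hJH (by omega) (by omega) (by omega) hji hk (by omega)
          · exact div_nonneg (Ec_nonneg hgu0 hgh0 a) (Nat.cast_nonneg _)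
      _ = K * E.w i * ∑ a ∈ A, Ec E j a / a * (a : ℝ) ^ (-E.δ / 2) := by
          rw [Finset.mul_sum]
          apply Finset.sum_congr rfl
          intro a _
          ring
      _ ≤ K * E.w i * (1 / (64 * K)) := mul_le_mul_of_nonneg_left hES' (by positivity)
      _ = E.w i / 64 := by field_simp

end Pool.Agent.TH832.J788
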